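import Pool.Agent.Z700.Main
import Pool.Agent.Z700.Defs3

/-!
# Split primes and an even number of inert primes: the assembly
-/

set_option autoImplicit false
set_option linter.style.haveILetI false

open Finset

namespace Pool.Agent.Z701

open Pool.Agent.W97.MT (ap E14 affCount IsGloballyMinimal)
open Pool.Agent.Y687 (SS Symb2 Symb rr mem_rr chi cnt)
open Pool.Agent.Y700 (PC Rt WM EQ Omega tamProd IsL S_E0 S_TIN S_TSP S_T2 S_T7 S_OMEGA S_MIN)
open Pool.Agent.Z700 (pr X2 Yd lres xres Fp xrt S_SYM pr_pos dvd_pr mem_of_dvd_pr pr_mod pr_sqf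
  one_lt_pr sum_jac ap5 Yd_singleton Yd_congr NE_mod finite_of_sel)

theorem Gd.prime {P : Finset ℕ} (hP : Gd P) {p : ℕ} (hp : p ∈ P) : p.Prime := by
  rcases hP.1 p hp with h | h
  · exact h.1
  · exact h.1

theorem Gd.mod4 {P : Finset ℕ} (hP : Gd P) {p : ℕ} (hp : p ∈ P) : p % 4 = 1 := by
  rcases hP.1 p hp with h | h
  · have := h.2.1; omega
  · have := h.2.1; omega

theorem Gd.ne {P : Finset ℕ} (hP : Gd P) {p : ℕ} (hp : p ∈ P) : p ≠ 2 ∧ p ≠ 3 ∧ p ≠ 7 := by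
  rcases hP.1 p hp with h | h
  · have := h.2.1; have := h.2.2; omega
  · have := h.2.1; have := h.2.2; omega

/-- the character sum of the symbol is a square, up to the value at zero -/
theorem SS_eq (hS : S_SYM) (hD : S_DIAG) {s : ℚ → ℤ} {a : ℕ → ℤ} (h : Symb2 s a) (h5 : a 5 = 0)
    {P : Finset ℕ} (hP : Gd P) (hne : P.Nonempty) :
    SS s (pr P) (pr P) = s 0 * pii P ^ 2 := by
  have hPp : ∀ p ∈ P, p.Prime := fun p hp => hP.prime hp
  have hM := pr_pos hPp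
  have h14 : Nat.Coprime 14 (pr P) := by
    rw [show (14 : ℕ) = 2 * 7 by norm_num]
    refine Nat.Coprime.mul_left ?_ ?_
    · rw [Nat.Prime.coprime_iff_not_dvd Nat.prime_two]
      intro hd
      exact (hP.ne (mem_of_dvd_pr hPp Nat.prime_two hd)).1 rfl
    · rw [Nat.Prime.coprime_iff_not_dvd (by norm_num)]
      intro hd
      exact (hP.ne (mem_of_dvd_pr hPp (by norm_num) hd)).2.2 rfl
  have e1 : SS s (pr P) (pr P) = ∑ u ∈ rr (pr P), (s 0 * jacobiSym (u : ℤ) (pr P) -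
      3 * s 0 * (jacobiSym (u : ℤ) (pr P) * Fp u (pr P))) := by
    unfold SS
    refine Finset.sum_congr rfl fun u hu => ?_
    have hu2 := (mem_rr.1 hu).2
    have hc : IsCoprime (14 * (u : ℤ)) ((pr P : ℕ) : ℤ) := by
      refine IsCoprime.mul_left ?_ ?_
      · exact_mod_cast (Nat.isCoprime_iff_coprime.2 h14)
      · exact Nat.isCoprime_iff_coprime.2 hu2
    have h1 := hS s a h h5 u (pr P) (by exact_mod_cast hM) hc
    have h2 : s (((u : ℕ) : ℚ) / ((pr P : ℕ) : ℚ)) = s 0 * (1 - 3 * Fp u (pr P)) := by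
      rw [← h1]
      push_cast
      rfl
    rw [h2]
    ring
  rw [e1, Finset.sum_sub_distrib, ← Finset.mul_sum, ← Finset.mul_sum,
    sum_jac hPp hne (fun p hp => (hP.ne hp).1)]
  have h3 := hD P hP hne
  have e2 : (range (pr P)).filter (fun u => Nat.Coprime u (pr P)) = rr (pr P) := rfl
  rw [e2] at h3
  linear_combination s 0 * h3

theorem Gd_single {p : ℕ} (hp : Sp p) : Gd {p} ∧ spl {p} = {p} ∧ inr {p} = ∅ := by
  have h8 := hp.2.1
  refine ⟨⟨?_, ?_⟩, ?_, ?_⟩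
  · intro q hq
    rw [Finset.mem_singleton] at hq
    rw [hq]
    exact Or.inl hp
  · unfold inr
    rw [Finset.filter_singleton, if_neg (by omega)]
    simp
  · unfold spl
    rw [Finset.filter_singleton, if_pos h8]
  · unfold inr
    rw [Finset.filter_singleton, if_neg (by omega)]

/-- the parity condition at a prime -/
theorem x_eq (hS : S_SYM) (hD : S_DIAG) (hI : S_IND) (hR : Pool.Agent.Z700.S_RTE) {p : ℕ}
    (hp : Sp p) : xres p = xrt p := by
  classical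
  obtain ⟨s, Op, hOp, hs, hv⟩ := Pool.Agent.Y687.exists_symb2
  have hp8 : p % 8 = 1 := hp.2.1
  have hsp : Pool.Agent.Y687.Split p := hp
  obtain ⟨-, -, k1, k2⟩ := Pool.Agent.Y687.split_sp hsp
  obtain ⟨hG, hsl, hin⟩ := Gd_single hp
  have e1 := SS_eq hS hD hs ap5 hG (Finset.singleton_nonempty p)
  obtain ⟨y, e2, e3⟩ := hI {p} hG (Finset.singleton_nonempty p)
  rw [hsl, hin, Finset.card_singleton, Finset.card_empty, Nat.zero_div, add_zero, pow_one] at e2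
  rw [hsl, hin, Yd_singleton] at e3
  have e30 : ind ∅ p = 0 := by unfold ind; simp
  rw [e30, add_zero] at e3
  have e4 := Pool.Agent.Y687.sum_split hs.toSymb p hp.1 hp8 k1 k2 ∅ (by simp) (by simp)
  have e5 : pr {p} = p := by unfold pr; simp
  rw [e5, e2] at e1
  simp only [Finset.card_empty, Finset.prod_empty, mul_one, pow_zero, one_mul, zero_add,
    jacobiSym.one_right] at e4
  rw [e1] at e4
  obtain ⟨k, hk⟩ := hs.odd0
  have hiff : Odd y ↔ ¬ (8 : ℤ) ∣ ap E14 p - 2 := by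
    have e6 : (8 : ℤ) ∣ 4 * y ^ 2 - (ap E14 p - 2) := by
      have e7 : s 0 * (3 * 2 * y) ^ 2 = 4 * y ^ 2 + 8 * ((9 * k + 4) * y ^ 2) := by
        rw [hk]; ring
      rw [e7] at e4
      have e8 : (8 : ℤ) ∣ 8 * ((9 * k + 4) * y ^ 2) := Dvd.intro _ rfl
      have e9 := dvd_sub (by simpa using e4) e8
      have e10 : 4 * y ^ 2 + 8 * ((9 * k + 4) * y ^ 2) - (ap E14 p - 2) -
          8 * ((9 * k + 4) * y ^ 2) = 4 * y ^ 2 - (ap E14 p - 2) := by ring
      rw [e10] at e9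
      exact e9
    constructor
    · rintro ⟨j, hj⟩ h8
      have h9 := dvd_add e6 h8
      have h10 : 4 * y ^ 2 - (ap E14 p - 2) + (ap E14 p - 2) = 4 + 8 * (2 * j ^ 2 + 2 * j) := by
        rw [hj]; ring
      rw [h10] at h9
      omega
    · intro h8
      rw [← Int.not_even_iff_odd]
      rintro ⟨j, hj⟩
      apply h8
      have h10 : ap E14 p - 2 = 8 * (2 * j ^ 2) - (4 * y ^ 2 - (ap E14 p - 2)) := by
        rw [hj]; ring
      rw [h10]
      exact dvd_sub (Dvd.intro _ rfl) e6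
  rw [e3, ← NE_mod hp.1 hp8, ← hR p hp.1 hp8 hp.2.2] at hiff
  unfold xres xrt at *
  by_cases h1 : X2 p <;> by_cases h2 : Rt p 1 <;> simp_all

/-- the determinant modulo two depends on the entries modulo two -/
theorem Yd_mod2 {l : ℕ → ℕ → ℤ} {x x' : ℕ → ℤ} {P : Finset ℕ}
    (h : ∀ p ∈ P, (Odd (x p) ↔ Odd (x' p))) : Odd (Yd l x P) ↔ Odd (Yd l x' P) := by
  have h2 : ∀ z : ℤ, Odd z ↔ (z : ZMod 2) = 1 := by
    intro z
    rw [← Int.not_even_iff_odd, ← ZMod.intCast_eq_zero_iff_even]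
    generalize (z : ZMod 2) = w
    revert w
    decide
  have h3 : ((Yd l x P : ℤ) : ZMod 2) = ((Yd l x' P : ℤ) : ZMod 2) := by
    unfold Yd
    have e1 := fun M : Matrix P P ℤ => (Int.castRingHom (ZMod 2)).map_det M
    simp only [eq_intCast] at e1
    rw [e1, e1]
    congr 1
    ext i j
    have hi := h i.1 i.2
    rw [h2, h2] at hi
    have hi' : ((x i : ℤ) : ZMod 2) = ((x' i : ℤ) : ZMod 2) := by
      revert hi
      generalize ((x i : ℤ) : ZMod 2) = u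
      generalize ((x' i : ℤ) : ZMod 2) = v
      revert u v
      decide
    simp only [RingHom.mapMatrix_apply, Matrix.map_apply, Matrix.of_apply, eq_intCast]
    split_ifs
    · push_cast
      rw [hi']
    · rfl
  rw [h2, h2, h3]

/-- two forms of the determinant condition -/
theorem Yd_iff (hS : S_SYM) (hD : S_DIAG) (hI : S_IND) (hR : Pool.Agent.Z700.S_RTE) (hX : S_XRS)
    {P S : Finset ℕ} (hP : ∀ p ∈ P, Sp p) (hSS : ∀ q ∈ S, Nr q) :
    Odd (Yd lres (xrS S) P) ↔ Odd (Yd lres (fun p => xres p + ind S p) P) := by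
  refine Yd_mod2 fun p hp => ?_
  rw [hX p (hP p hp) S hSS, x_eq hS hD hI hR (hP p hp)]

/-- the union of the two sets -/
theorem union_facts {P S : Finset ℕ} (hP : ∀ p ∈ P, Sp p) (hSS : ∀ q ∈ S, Nr q) :
    spl (P ∪ S) = P ∧ inr (P ∪ S) = S ∧ pr (P ∪ S) = pr P * pr S ∧ Disjoint P S ∧
      (Even S.card → Gd (P ∪ S)) := by
  have h1 : spl (P ∪ S) = P := by
    ext p
    unfold spl
    rw [Finset.mem_filter, Finset.mem_union]
    constructor
    · rintro ⟨h | h, h8⟩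
      · exact h
      · have := (hSS p h).2.1; omega
    · intro h
      exact ⟨Or.inl h, (hP p h).2.1⟩
  have h2 : inr (P ∪ S) = S := by
    ext p
    unfold inr
    rw [Finset.mem_filter, Finset.mem_union]
    constructor
    · rintro ⟨h | h, h8⟩
      · have := (hP p h).2.1; omega
      · exact h
    · intro h
      exact ⟨Or.inr h, (hSS p h).2.1⟩
  have h3 : Disjoint P S := by
    rw [Finset.disjoint_left]
    intro p hp hq
    have := (hP p hp).2.1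
    have := (hSS p hq).2.1
    omega
  refine ⟨h1, h2, ?_, h3, fun he => ⟨?_, ?_⟩⟩
  · unfold pr
    exact Finset.prod_union h3
  · intro p hp
    rcases Finset.mem_union.1 hp with h | h
    · exact Or.inl (hP p h)
    · exact Or.inr (hSS p h)
  · rw [h2]; exact he

/-- the exact power of two -/
theorem SS_val (hS : S_SYM) (hD : S_DIAG) (hI : S_IND) {P S : Finset ℕ} (hP : ∀ p ∈ P, Sp p)
    (hSS : ∀ q ∈ S, Nr q) (hev : Even S.card) (hne : P.Nonempty)
    (hY : Odd (Yd lres (fun p => xres p + ind S p) P)) {s : ℚ → ℤ} {a : ℕ → ℤ} (h : Symb2 s a)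
    (h5 : a 5 = 0) : ∃ o : ℤ, Odd o ∧
      SS s (pr P * pr S) (pr P * pr S) = 2 ^ (S.card + 2 * P.card) * o := by
  obtain ⟨u1, u2, u3, u4, u5⟩ := union_facts hP hSS
  have hne' : (P ∪ S).Nonempty := hne.mono Finset.subset_union_left
  obtain ⟨y, e2, e3⟩ := hI (P ∪ S) (u5 hev) hne'
  rw [u1, u2] at e2 e3
  have hy := e3.2 hY
  refine ⟨s 0 * 9 * y ^ 2, (h.odd0.mul (by decide)).mul hy.pow, ?_⟩
  rw [← u3, SS_eq hS hD h h5 (u5 hev) hne', e2]
  obtain ⟨r, hr⟩ := hev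
  have e4 : S.card / 2 = r := by omega
  rw [e4, hr]
  have h4 : (2 : ℤ) ^ (r + r + 2 * P.card) = (2 ^ (P.card + r)) ^ 2 := by
    rw [← pow_mul]
    congr 1
    ring
  rw [h4]
  ring

theorem pr_facts {P S : Finset ℕ} (hP : ∀ p ∈ P, Sp p) (hSS : ∀ q ∈ S, Nr q) (hne : P.Nonempty) :
    (pr P * pr S) % 4 = 1 ∧ 1 < pr P * pr S ∧ Squarefree (pr P * pr S) ∧
      Nat.Coprime (pr P * pr S) 42 := by
  obtain ⟨u1, u2, u3, u4, -⟩ := union_facts hP hSS
  rw [← u3]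
  have hall : ∀ p ∈ P ∪ S, Sp p ∨ Nr p := by
    intro p hp
    rcases Finset.mem_union.1 hp with h | h
    · exact Or.inl (hP p h)
    · exact Or.inr (hSS p h)
  have hPp : ∀ p ∈ P ∪ S, p.Prime := by
    intro p hp
    rcases hall p hp with h | h
    · exact h.1
    · exact h.1
  have h4 : ∀ p ∈ P ∪ S, p % 4 = 1 % 4 := by
    intro p hp
    rcases hall p hp with h | h
    · have := h.2.1; omega
    · have := h.2.1; omega
  have hne' : ∀ p ∈ P ∪ S, p ≠ 2 ∧ p ≠ 3 ∧ p ≠ 7 := by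
    intro p hp
    rcases hall p hp with h | h
    · have := h.2.1; have := h.2.2; omega
    · have := h.2.1; have := h.2.2; omega
  have h44 : pr (P ∪ S) % 4 = 1 % 4 := pr_mod h4
  refine ⟨by omega, one_lt_pr hPp (hne.mono Finset.subset_union_left), pr_sqf hPp, ?_⟩
  have key : ∀ l : ℕ, l.Prime → l ∉ P ∪ S → Nat.Coprime (pr (P ∪ S)) l := by
    intro l hl h1
    rw [Nat.coprime_comm, Nat.Prime.coprime_iff_not_dvd hl]
    exact fun h => h1 (mem_of_dvd_pr hPp hl h)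
  rw [show (42 : ℕ) = 2 * 3 * 7 by norm_num]
  exact Nat.Coprime.mul_right (Nat.Coprime.mul_right
    (key 2 Nat.prime_two fun h => (hne' 2 h).1 rfl)
    (key 3 Nat.prime_three fun h => (hne' 3 h).2.1 rfl))
    (key 7 (by norm_num) fun h => (hne' 7 h).2.2 rfl)

/-- nonvanishing and finiteness -/
theorem weak (hS : S_SYM) (hD : S_DIAG) (hI : S_IND) (hR : Pool.Agent.Z700.S_RTE) (hX : S_XRS)
    (hA : S_SELA) (hB : S_SELB) {P S : Finset ℕ} (hP : ∀ p ∈ P, Sp p) (hSS : ∀ q ∈ S, Nr q)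
    (hev : Even S.card) (hne : P.Nonempty) (hY : Odd (Yd lres (xrS S) P)) :
    (∃ f : ℂ → ℂ, Differentiable ℂ f ∧
      (∀ s : ℂ, (3 : ℝ) / 2 < s.re →
        HasProd (fun l : {l : ℕ // l.Prime ∧
            ¬ ((l : ℤ) ∣ 2 * (4 * (5805 * ((pr P * pr S : ℕ) : ℤ) ^ 2) ^ 3 +
              27 * (-285714 * ((pr P * pr S : ℕ) : ℤ) ^ 3) ^ 2))} =>
          Pool.Agent.Y687.fac (5805 * ((pr P * pr S : ℕ) : ℤ) ^ 2)
            (-285714 * ((pr P * pr S : ℕ) : ℤ) ^ 3) s l)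
          (f s)) ∧ f 1 ≠ 0) ∧
    {q : ℚ × ℚ | q.2 ^ 2 = q.1 ^ 3 + ((5805 * ((pr P * pr S : ℕ) : ℤ) ^ 2 : ℤ) : ℚ) * q.1 +
      ((-285714 * ((pr P * pr S : ℕ) : ℤ) ^ 3 : ℤ) : ℚ)}.Finite := by
  obtain ⟨h4, h1, hsq, h42⟩ := pr_facts hP hSS hne
  have H : HyS P S := ⟨hne, hP, hSS, hY⟩
  refine ⟨?_, finite_of_sel (by omega) (fun z h1 h2 h3 => hA P S H z h1 h2 (fun l _ => h3 l))
    (fun z h1 h2 => hB P S H z h1 (fun l _ => h2 l))⟩
  obtain ⟨s, Op, hOp, hsym, hs⟩ := Pool.Agent.Y687.exists_symb2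
  obtain ⟨o, ho, e⟩ := SS_val hS hD hI hP hSS hev hne
    ((Yd_iff hS hD hI hR hX hP hSS).1 hY) hsym ap5
  have ho0 : o ≠ 0 := by rintro rfl; simp at ho
  exact Pool.Agent.Y687.exists_f_ne (pr P * pr S) (Nat.odd_iff.2 (by omega)) hsq h1 h4 h42 hOp hs
    (by rw [e]; exact mul_ne_zero (by positivity) ho0)

/-- the rank form -/
theorem rank_form (hS : S_SYM) (hD : S_DIAG) (hI : S_IND) (hR : Pool.Agent.Z700.S_RTE)
    (hX : S_XRS) (hA : S_SELA) (hB : S_SELB) {P S : Finset ℕ} (hP : ∀ p ∈ P, Sp p)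
    (hSS : ∀ q ∈ S, Nr q) (hev : Even S.card) (hne : P.Nonempty)
    (hY : Odd (Yd lres (xrS S) P)) :
    Pool.Agent.Y687.RankBSD (5805 * ((pr P * pr S : ℕ) : ℤ) ^ 2)
      (-285714 * ((pr P * pr S : ℕ) : ℤ) ^ 3) := by
  obtain ⟨⟨f, hf, hfp, hf1⟩, hfin⟩ := weak hS hD hI hR hX hA hB hP hSS hev hne hY
  exact Pool.Agent.Y687.rankBSD hf hfp hf1 hfin

/-- the `2`-part of the formula -/
theorem two_part (tE : S_E0) (tIN : S_TIN) (tSP : S_TSP) (t2 : S_T2) (t7 : S_T7) (tO : S_OMEGA)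
    (tM : S_MIN) (hS : S_SYM) (hD : S_DIAG) (hI : S_IND) (hR : Pool.Agent.Z700.S_RTE)
    (hX : S_XRS) (hA : S_SELA) (hB : S_SELB) {P S : Finset ℕ} (hP : ∀ p ∈ P, Sp p)
    (hSS : ∀ q ∈ S, Nr q) (hev : Even S.card) (hne : P.Nonempty)
    (hY : Odd (Yd lres (xrS S) P)) (W : WeierstrassCurve ℤ) (hW : W = WM ((pr P * pr S : ℕ) : ℤ)) :
    IsGloballyMinimal W ∧ Finite (EQ W).toAffine.Point ∧
    (∀ (n : ℕ) (x : Pool.Agent.TH841.SH.D.Sha (EQ W)), 2 ^ n • x = 0 → x = 0) ∧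
    (∃ f, IsL W f) ∧ ∀ f, IsL W f → f 1 ≠ 0 ∧ ∃ u : ℚ, padicValRat 2 u = 0 ∧
      f 1 = (((u : ℝ) * (Omega W * tamProd W / (Nat.card (EQ W).toAffine.Point : ℝ) ^ 2) : ℝ) : ℂ) := by
  classical
  obtain ⟨h4, h1, hsq, h42⟩ := pr_facts hP hSS hne
  have H : HyS P S := ⟨hne, hP, hSS, hY⟩
  obtain ⟨s, L, Op, Om, hOp, hOm, g2, g3, hL, hsym, hs⟩ := Pool.Agent.Y700.exists_symb2'
  obtain ⟨o1, ho1, e1⟩ := SS_val hS hD hI hP hSS hev hne
    ((Yd_iff hS hD hI hR hX hP hSS).1 hY) hsym ap5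
  have hsqZ : Squarefree ((pr P * pr S : ℕ) : ℤ) := Int.squarefree_natCast.2 hsq
  obtain ⟨o3, ho3, e3⟩ := Pool.Agent.Y700.tam_gen tE tIN tSP t2 t7 (P := P) (S := S)
    (M := pr P * pr S) (by
      intro q hq
      have h7 := (hP q hq).2.2
      have h8 := (hP q hq).2.1
      haveI : Fact q.Prime := ⟨(hP q hq).1⟩
      exact ⟨(hP q hq).1, by omega, by omega,
        (Pool.Agent.Y687.sq_seven q (by omega) (by omega)).2 h7⟩) (by
      intro q hq
      have h7 := (hSS q hq).2.2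
      have h8 := (hSS q hq).2.1
      haveI : Fact q.Prime := ⟨(hSS q hq).1⟩
      refine ⟨(hSS q hq).1, by omega, by omega, ?_⟩
      rw [Pool.Agent.Y687.sq_seven q (by omega) (by omega)]
      omega) (by simp [pr]) h4 hsqZ
  obtain ⟨a1, a2, k, hk, a3⟩ := Pool.Agent.Y700.alg_M (M := ((pr P * pr S : ℕ) : ℤ)) (by omega)
    (fun z h1 h2 h3 => hA P S H z h1 h2 (fun l _ => h3 l))
    (fun z h1 h2 => hB P S H z h1 (fun l _ => h2 l))
  have h14 : Nat.Coprime (pr P * pr S) 14 := Nat.Coprime.coprime_dvd_right (by norm_num) h42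
  obtain ⟨c1, c2, c3⟩ := Pool.Agent.Y700.concl tO tM h4 h1 hsqZ h14 hOp hOm g2 g3 hL hs ho1 e1 ho3 e3
    hk a3
  subst hW
  exact ⟨c1, a2, a1, c2, c3⟩

end Pool.Agent.Z701
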