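import Pool.Agent.Z701.Union
import Pool.Agent.Z700.Fin
import Pool.Agent.Y941.ZB.Bil1
import Pool.Agent.Z759.BSD.GENb
import Pool.Agent.Z270.Gen
import Pool.Agent.Z270.C1A
import Pool.Agent.Z405.C1B
import Pool.Agent.Z811.DIAG
import Pool.Agent.Y664.Z.Sela2
import Pool.Agent.Y665.SELB.SelbS
import Pool.Agent.Y614.Z.Rte
import Pool.Agent.Y155.Z701.Exi
import Pool.Agent.Y232.ZI.Ind3
import Pool.Agent.Y259.Z7.Sol
import Pool.Agent.Y657.Z.Fix6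
import Pool.Agent.Z447.SolA
import Pool.Agent.Z447.SolB
import Pool.Agent.Z421.SOL2
import Pool.Agent.Z141.SG
import Pool.Agent.Z864.Bil2a
import Pool.Agent.Z864.Bil2b
import Pool.Agent.Z864.Can
import Pool.Agent.Y949.Z7.C2

/-!
# The parts of the second stage

Collection of the parts of the proof of the statements of `Pool.Agent.Z700.Defs3`.
-/

set_option autoImplicit false

namespace Pool.Agent.Z701

theorem f_SG : S_SG := Pool.Agent.Z141.t_SG Pool.Agent.Z700.t_JAC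
theorem f_BIL2A : S_BIL2A := Pool.Agent.Z864.t_BIL2A
theorem f_CAN : S_CAN := Pool.Agent.Z864.t_CAN Pool.Agent.Z700.f_PC
theorem f_BIL2B : S_BIL2B := Pool.Agent.Z864.t_BIL2B Pool.Agent.Z700.f_PC
theorem f_FIX0 : S_FIX0 := Pool.Agent.Y657.Z.t_FIX0 Pool.Agent.Z447.t_SOLA0
  Pool.Agent.Z447.t_SOLB1 Pool.Agent.Y259.Z7.t_SOLC Pool.Agent.Y259.Z7.t_SOLP
theorem f_FIX2 : S_FIX2 := Pool.Agent.Y657.Z.t_FIX2 Pool.Agent.Z421.t_SOLA2
  Pool.Agent.Z447.t_SOLB1 Pool.Agent.Z421.t_SOLB2 Pool.Agent.Y259.Z7.t_SOLC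
  Pool.Agent.Y259.Z7.t_SOLP Pool.Agent.Y259.Z7.t_SOLT
theorem f_C2 : S_C2 := Pool.Agent.Y949.Z7.t_C2

theorem f_BIL : S_BIL := bil_of (Pool.Agent.Y941.ZB.t_BIL1 f_SG Pool.Agent.Z700.t_SG1)
  f_BIL2A f_CAN f_BIL2B

theorem f_GEN : S_GEN := Pool.Agent.Z270.Gen.t_GEN Pool.Agent.Z759.BSD.t_GENb

theorem f_IND : S_IND := Pool.Agent.Y232.ZJ.t_IND Pool.Agent.Z700.t_SG1 f_BIL f_GEN f_FIX0 f_FIX2
  Pool.Agent.Z179.t_TREE

theorem f_C1 : S_C1 := c1_of Pool.Agent.Z270.C1A.t_C1A Pool.Agent.Z405.C1B.t_C1B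

theorem f_DIAG : S_DIAG := Pool.Agent.Z811.t_DIAG f_BIL f_C1 f_C2

theorem f_SELA : S_SELA := Pool.Agent.Y664.Z1.t_SELA

theorem f_SELB : S_SELB := Pool.Agent.Y665.SELC.t_SELB

theorem f_RTE : S_RTE := Pool.Agent.Y614.Z.t_RTE

theorem f_XRS : S_XRS := Pool.Agent.Y614.Z.t_XRS

theorem f_EXI : S_EXI := Pool.Agent.Y155.Z701.t_EXI f_XRS

end Pool.Agent.Z701
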