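import Pool.Agent.Z701.Main

/-!
# The condition in terms of a matrix over `𝔽₂`
-/

set_option autoImplicit false
set_option linter.style.haveILetI false

open Finset

namespace Pool.Agent.Z701

open Pool.Agent.Z700 (pr X2 Yd lres xres xrt S_SYM Yd_singleton)
open Pool.Agent.Y687 (NN)
open Pool.Agent.Y700 (Rt)

open Classical in
/-- the matrix over `𝔽₂` -/
noncomputable def mat (P : Finset ℕ) (m : ℕ) : Matrix P P (ZMod 2) := Matrix.of fun i j =>
  if i = j then
    (((P.filter fun p' : ℕ => p' ≠ (i : ℕ) ∧ ¬ IsSquare (p' : ZMod (i : ℕ))).card : ZMod 2) +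
      if 8 ∣ NN m (i : ℕ) then 0 else 1)
  else if IsSquare (((j : ℕ)) : ZMod (i : ℕ)) then 0 else 1

/-- the matrix is nonsingular -/
def CondP (P : Finset ℕ) (m : ℕ) : Prop := (mat P m).det ≠ 0

theorem lres_iff {p q : ℕ} (hp : p.Prime) (hq : q.Prime) (hne : p ≠ q) (p4 : p % 4 = 1)
    (q4 : q % 4 = 1) : lres p q = 1 ∧ ¬ IsSquare (q : ZMod p) ∨ lres p q = 0 ∧ IsSquare (q : ZMod p) := by
  haveI : Fact p.Prime := ⟨hp⟩
  haveI : Fact q.Prime := ⟨hq⟩
  have hrec : jacobiSym p q = jacobiSym q p :=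
    jacobiSym.quadratic_reciprocity_one_mod_four p4 (hq.odd_of_ne_two (by omega))
  have hq0 : ((q : ℤ) : ZMod p) ≠ 0 := by
    rw [Ne, ZMod.intCast_zmod_eq_zero_iff_dvd, Int.natCast_dvd_natCast]
    intro h
    exact hne ((Nat.prime_dvd_prime_iff_eq hp hq).1 h)
  have h1 : jacobiSym q p = 1 ↔ IsSquare (q : ZMod p) := by
    rw [← jacobiSym.legendreSym.to_jacobiSym, legendreSym.eq_one_iff _ hq0]
    push_cast
    exact Iff.rfl
  have h2 : jacobiSym q p = 1 ∨ jacobiSym q p = -1 := by
    refine jacobiSym.eq_one_or_neg_one ?_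
    rw [Int.gcd_natCast_natCast]
    exact ((Nat.coprime_primes hp hq).2 hne).symm
  unfold lres
  rw [hrec]
  rcases h2 with h | h
  · right
    rw [h]
    exact ⟨by norm_num, h1.1 h⟩
  · left
    rw [h]
    refine ⟨by norm_num, fun h3 => ?_⟩
    rw [h1.2 h3] at h
    norm_num at h

/-- the matrix condition and the determinant -/
theorem condP_iff (hR : S_RTE) {P S : Finset ℕ} (hP : ∀ p ∈ P, Sp p) (hSS : ∀ q ∈ S, Nr q) :
    CondP P (pr S) ↔ Odd (Yd lres (xrS S) P) := by
  classical
  have h2 : ∀ z : ℤ, Odd z ↔ (z : ZMod 2) ≠ 0 := by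
    intro z
    rw [← Int.not_even_iff_odd, ← ZMod.intCast_eq_zero_iff_even]
  rw [h2]
  unfold CondP
  have h3 : ((Yd lres (xrS S) P : ℤ) : ZMod 2) = (mat P (pr S)).det := by
    unfold Yd
    have e1 := fun M : Matrix P P ℤ => (Int.castRingHom (ZMod 2)).map_det M
    simp only [eq_intCast] at e1
    rw [e1]
    congr 1
    ext i j
    have hi := hP i.1 i.2
    have i4 : (i : ℕ) % 4 = 1 := by have := hi.2.1; omega
    simp only [RingHom.mapMatrix_apply, Matrix.map_apply, Matrix.of_apply, eq_intCast, mat]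
    split_ifs with hij h8 h8
    · push_cast
      have e2 : (∑ k ∈ P.erase i.1, ((lres i.1 k : ℤ) : ZMod 2)) =
          ((P.filter fun p' : ℕ => p' ≠ (i : ℕ) ∧ ¬ IsSquare (p' : ZMod (i : ℕ))).card :
            ZMod 2) := by
        rw [Finset.card_filter]
        push_cast
        rw [← Finset.sum_erase (s := P) (a := i.1)]
        · refine Finset.sum_congr rfl fun k hk => ?_
          obtain ⟨hk1, hk2⟩ := Finset.mem_erase.1 hk
          have hkk := hP k hk2
          rcases lres_iff hi.1 hkk.1 (Ne.symm hk1) i4 (by have := hkk.2.1; omega) with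
            ⟨a, b⟩ | ⟨a, b⟩
          · rw [a, if_pos ⟨hk1, b⟩]; norm_num
          · rw [a, if_neg (fun h => h.2 b)]; norm_num
        · rw [if_neg (fun h => h.1 rfl)]
      rw [e2]
      have e3 : xrS S i = 0 := by
        unfold xrS
        rw [if_neg]
        rw [hR i hi S hSS]
        exact fun h => h h8
      rw [e3]
      norm_num
    · push_cast
      have e2 : (∑ k ∈ P.erase i.1, ((lres i.1 k : ℤ) : ZMod 2)) =
          ((P.filter fun p' : ℕ => p' ≠ (i : ℕ) ∧ ¬ IsSquare (p' : ZMod (i : ℕ))).card :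
            ZMod 2) := by
        rw [Finset.card_filter]
        push_cast
        rw [← Finset.sum_erase (s := P) (a := i.1)]
        · refine Finset.sum_congr rfl fun k hk => ?_
          obtain ⟨hk1, hk2⟩ := Finset.mem_erase.1 hk
          have hkk := hP k hk2
          rcases lres_iff hi.1 hkk.1 (Ne.symm hk1) i4 (by have := hkk.2.1; omega) with
            ⟨a, b⟩ | ⟨a, b⟩
          · rw [a, if_pos ⟨hk1, b⟩]; norm_num
          · rw [a, if_neg (fun h => h.2 b)]; norm_num
        · rw [if_neg (fun h => h.1 rfl)]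
      rw [e2]
      have e3 : xrS S i = 1 := by
        unfold xrS
        rw [if_pos]
        rw [hR i hi S hSS]
        exact h8
      rw [e3]
      norm_num
    · have hj := hP j.1 j.2
      have hne : (i : ℕ) ≠ j := fun h => hij (Subtype.ext h)
      rcases lres_iff hi.1 hj.1 hne i4 (by have := hj.2.1; omega) with ⟨a, b⟩ | ⟨a, b⟩
      · exact absurd h8 b
      · rw [a]; norm_num
    · have hj := hP j.1 j.2
      have hne : (i : ℕ) ≠ j := fun h => hij (Subtype.ext h)
      rcases lres_iff hi.1 hj.1 hne i4 (by have := hj.2.1; omega) with ⟨a, b⟩ | ⟨a, b⟩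
      · rw [a]; decide
      · exact absurd b h8
  rw [h3]

theorem Yd_pair (l : ℕ → ℕ → ℤ) (x : ℕ → ℤ) {p q : ℕ} (h : p ≠ q) :
    Yd l x {p, q} = (l p q + x p) * (l q p + x q) - l p q * l q p := by
  classical
  unfold Yd
  have hp : p ∈ ({p, q} : Finset ℕ) := by simp
  have hq : q ∈ ({p, q} : Finset ℕ) := by simp
  let e : Fin 2 ≃ ({p, q} : Finset ℕ) := Equiv.ofBijective
    (fun i => if i = 0 then ⟨p, hp⟩ else ⟨q, hq⟩) (by
      constructor
      · intro i j hij
        fin_cases i <;> fin_cases j <;> simp_all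
      · rintro ⟨r, hr⟩
        rcases Finset.mem_insert.1 hr with rfl | hr'
        · exact ⟨0, by simp⟩
        · rw [Finset.mem_singleton] at hr'
          subst hr'
          exact ⟨1, by simp⟩)
  rw [← Matrix.det_submatrix_equiv_self e, Matrix.det_fin_two]
  have e0 : e 0 = ⟨p, hp⟩ := by simp [e]
  have e1 : e 1 = ⟨q, hq⟩ := by simp [e]
  simp only [Matrix.submatrix_apply, e0, e1, Matrix.of_apply]
  have n1 : (⟨p, hp⟩ : ({p, q} : Finset ℕ)) ≠ ⟨q, hq⟩ := fun h' => h (congrArg Subtype.val h')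
  have n2 : (⟨q, hq⟩ : ({p, q} : Finset ℕ)) ≠ ⟨p, hp⟩ := fun h' => h (congrArg Subtype.val h').symm
  rw [if_neg n1, if_neg n2]
  simp only [if_true]
  have s1 : ({p, q} : Finset ℕ).erase p = {q} := by
    ext r
    simp only [Finset.mem_erase, Finset.mem_insert, Finset.mem_singleton]
    constructor
    · rintro ⟨a, rfl | b⟩
      · exact absurd rfl a
      · exact b
    · rintro rfl
      exact ⟨Ne.symm h, Or.inr rfl⟩
  have s2 : ({p, q} : Finset ℕ).erase q = {p} := by
    ext r
    simp only [Finset.mem_erase, Finset.mem_insert, Finset.mem_singleton]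
    constructor
    · rintro ⟨a, b | rfl⟩
      · exact b
      · exact absurd rfl a
    · rintro rfl
      exact ⟨h, Or.inl rfl⟩
  rw [s1, s2, Finset.sum_singleton, Finset.sum_singleton]
  ring

/-- one split prime -/
theorem cond_one (hR : S_RTE) {p : ℕ} {S : Finset ℕ} (hp : Sp p) (hSS : ∀ q ∈ S, Nr q)
    (h : CondP {p} (pr S)) : ¬ 8 ∣ NN (pr S) p := by
  have hP : ∀ q ∈ ({p} : Finset ℕ), Sp q := by
    intro q hq; rw [Finset.mem_singleton] at hq; rw [hq]; exact hp
  rw [condP_iff hR hP hSS, Yd_singleton] at h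
  rw [← hR p hp S hSS]
  by_contra h2
  unfold xrS at h
  rw [if_neg h2] at h
  simp at h

/-- two split primes -/
theorem cond_two (hR : S_RTE) {p q : ℕ} {S : Finset ℕ} (hp : Sp p) (hq : Sp q) (hpq : p ≠ q)
    (hSS : ∀ q ∈ S, Nr q) (h : CondP {p, q} (pr S)) : Pool.Agent.Y687.Cond2 p q (pr S) := by
  classical
  have hP : ∀ r ∈ ({p, q} : Finset ℕ), Sp r := by
    intro r hr
    rcases Finset.mem_insert.1 hr with rfl | hr
    · exact hp
    · rw [Finset.mem_singleton] at hr; rw [hr]; exact hq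
  rw [condP_iff hR hP hSS, Yd_pair _ _ hpq] at h
  have p4 : p % 4 = 1 := by have := hp.2.1; omega
  have q4 : q % 4 = 1 := by have := hq.2.1; omega
  have k1 := lres_iff hp.1 hq.1 hpq p4 q4
  have k2 := lres_iff hq.1 hp.1 (Ne.symm hpq) q4 p4
  have r1 := hR p hp S hSS
  have r2 := hR q hq S hSS
  have hsym : lres p q = lres q p := by
    unfold lres
    congr 1
    exact propext or_comm
  unfold Pool.Agent.Y687.Cond2
  rw [← r1, ← r2]
  unfold xrS at h
  by_cases a : Rt p (pr S) <;> by_cases b : Rt q (pr S)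
  · exact Or.inl ⟨a, b⟩
  · rw [if_pos a, if_neg b] at h
    right
    refine ⟨?_, Or.inl a⟩
    rcases k2 with ⟨u, v⟩ | ⟨u, v⟩
    · exact v
    · rw [hsym, u] at h
      simp at h
  · rw [if_neg a, if_pos b] at h
    right
    refine ⟨?_, Or.inr b⟩
    rcases k2 with ⟨u, v⟩ | ⟨u, v⟩
    · exact v
    · rw [hsym, u] at h
      simp at h
  · rw [if_neg a, if_neg b] at h
    exfalso
    simp only [add_zero, sub_self] at h
    exact absurd h (by decide)

end Pool.Agent.Z701
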